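import Pool.Agent.H89.UniqueAdd

set_option autoImplicit false

namespace Pool.Agent.Results.MP_1ad72b_al.NonArchimedeanUnique

open Pool.Agent.H89.UniqueAdd Filter

/-- The additive group of hyperintegers inside the hyperreals. -/
noncomputable def hyperint : AddSubgroup Hyperreal where
  carrier := {x | ∃ f : ℕ → ℤ, x = Hyperreal.ofSeq (fun n => (f n : ℝ))}
  add_mem' := by
    rintro _ _ ⟨f, rfl⟩ ⟨g, rfl⟩
    refine ⟨fun n => f n + g n, ?_⟩
    have : (fun n => ((f n + g n : ℤ) : ℝ)) = (fun n => (f n : ℝ)) + (fun n => (g n : ℝ)) := by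
      funext n; simp
    rw [this]
    rfl
  zero_mem' := ⟨fun _ => 0, by
    have : (fun _ : ℕ => ((0 : ℤ) : ℝ)) = fun _ => (0 : ℝ) := by funext n; simp
    rw [this]
    rfl⟩
  neg_mem' := by
    rintro _ ⟨f, rfl⟩
    refine ⟨fun n => - f n, ?_⟩
    have : (fun n => ((- f n : ℤ) : ℝ)) = - (fun n => (f n : ℝ)) := by
      funext n; simp
    rw [this]
    rfl

theorem hyperint_pos_one_le (x : Hyperreal) (hx : x ∈ hyperint) (h0 : 0 < x) : 1 ≤ x := by
  obtain ⟨f, rfl⟩ := hx
  have h1 : Hyperreal.ofSeq (fun _ => (0 : ℝ)) < Hyperreal.ofSeq (fun n => (f n : ℝ)) := h0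
  rw [Hyperreal.ofSeq_lt_ofSeq] at h1
  change Hyperreal.ofSeq (fun _ => (1 : ℝ)) ≤ Hyperreal.ofSeq (fun n => (f n : ℝ))
  rw [Hyperreal.ofSeq_le_ofSeq]
  filter_upwards [h1] with n hn
  have h2 : (0 : ℤ) < f n := by exact_mod_cast hn
  have h3 : (1 : ℤ) ≤ f n := h2
  exact_mod_cast h3

theorem hyperint_one_le (x : Hyperreal) (hx : x ∈ hyperint) (h0 : x ≠ 0) : 1 ≤ |x| := by
  rcases lt_or_gt_of_ne h0 with h | h
  · rw [abs_of_neg h]
    exact hyperint_pos_one_le _ (hyperint.neg_mem hx) (neg_pos.2 h)
  · rw [abs_of_pos h]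
    exact hyperint_pos_one_le _ hx h

theorem hyperint_cofinal (x : Hyperreal) : ∃ r ∈ hyperint, x ≤ r := by
  obtain ⟨g, rfl⟩ := Hyperreal.ofSeq_surjective x
  refine ⟨Hyperreal.ofSeq (fun n => ((⌈g n⌉ : ℤ) : ℝ)), ⟨fun n => ⌈g n⌉, rfl⟩, ?_⟩
  rw [Hyperreal.ofSeq_le_ofSeq]
  exact Eventually.of_forall (fun n => Int.le_ceil _)

theorem hyperint_one : (1 : Hyperreal) ∈ hyperint := by
  refine ⟨fun _ => 1, ?_⟩
  have : (fun _ : ℕ => ((1 : ℤ) : ℝ)) = fun _ => (1 : ℝ) := by funext n; simp
  rw [this]
  rfl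

instance : AddLeftMono (GS hyperint ℝ) := ⟨fun a b c h p => by
  change a.1 p + b.1 p ≤ a.1 p + c.1 p
  have := h p
  change b.1 p ≤ c.1 p at this
  linarith⟩

instance : AddRightMono (GS hyperint ℝ) := ⟨fun a b c h p => by
  change b.1 p + a.1 p ≤ c.1 p + a.1 p
  have := h p
  change b.1 p ≤ c.1 p at this
  linarith⟩


/-- There is a commutative lattice-ordered group, non-archimedean in the sense of the problem
(all integer powers of some element different from the identity lie below one element), whose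
operation is the only compatible group operation on its lattice with the same identity. -/
theorem result :
    ∃ (G : Type) (_ : Group G) (_ : Lattice G),
      (∀ a b c d : G, a ≤ b → c * a * d ≤ c * b * d) ∧
      (∀ a b : G, a * b = b * a) ∧
      (∀ op : G → G → G,
          (∀ x y z : G, op (op x y) z = op x (op y z)) →
          (∀ x : G, op 1 x = x ∧ op x 1 = x) →
          (∀ x : G, ∃ y : G, op x y = 1 ∧ op y x = 1) →
          (∀ a b c d : G, a ≤ b → op (op c a) d ≤ op (op c b) d) →
          ∀ x y : G, op x y = x * y) ∧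
      ∃ a b : G, a ≠ 1 ∧ ∀ n : ℤ, a ^ n ≤ b := by
  let L : Lattice (Multiplicative (GS hyperint ℝ)) := instLatticeGS
  refine ⟨Multiplicative (GS hyperint ℝ), inferInstance, L, ?_, ?_, ?_, ?_⟩
  · intro a b c d h p
    have := h p
    change (Multiplicative.toAdd a).1 p ≤ (Multiplicative.toAdd b).1 p at this
    change (Multiplicative.toAdd c).1 p + (Multiplicative.toAdd a).1 p
        + (Multiplicative.toAdd d).1 p ≤ (Multiplicative.toAdd c).1 p
        + (Multiplicative.toAdd b).1 p + (Multiplicative.toAdd d).1 p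
    linarith
  · intro a b
    exact mul_comm a b
  · intro op h1 h2 h3 h4
    have key := unique_addition hyperint_one_le hyperint_cofinal hyperint_one
      (I := ℝ) (R := hyperint) (op : GS hyperint ℝ → GS hyperint ℝ → GS hyperint ℝ)
      h1 h2 h3 (by
        intro a b c hab
        refine ⟨?_, ?_⟩
        · have h := h4 a b c 1 hab
          have e1 : op (op c a) 1 = op c a := (h2 (op c a)).2
          have e2 : op (op c b) 1 = op c b := (h2 (op c b)).2
          rw [e1, e2] at h
          exact h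
        · have h := h4 a b 1 c hab
          have e1 : op (op 1 a) c = op a c := congrArg (fun t => op t c) (h2 a).1
          have e2 : op (op 1 b) c = op b c := congrArg (fun t => op t c) (h2 b).1
          rw [e1, e2] at h
          exact h)
    intro x y
    exact key x y
  · refine ⟨Multiplicative.ofAdd (C 1), Multiplicative.ofAdd (C Hyperreal.omega), ?_, ?_⟩
    · intro h
      have h0 : (C 1 : GS hyperint ℝ) = 0 := h
      have h1 : (C 1 : GS hyperint ℝ).1 (fun _ => 0) = (0 : GS hyperint ℝ).1 (fun _ => 0) := by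
        rw [h0]
      change (1 : Hyperreal) = 0 at h1
      exact one_ne_zero h1
    · intro n p
      have e : (n • (C 1 : GS hyperint ℝ)).1 p = (n : Hyperreal) := by
        have : (n • (C 1 : GS hyperint ℝ)).1 = n • (C 1 : GS hyperint ℝ).1 := rfl
        rw [this, Pi.smul_apply]
        change n • (1 : Hyperreal) = _
        simp
      change (n • (C 1 : GS hyperint ℝ)).1 p ≤ Hyperreal.omega
      rw [e]
      have := Hyperreal.coe_lt_omega (n : ℝ)
      exact le_of_lt (by exact_mod_cast this)

end Pool.Agent.Results.MP_1ad72b_al.NonArchimedeanUnique
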